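import Pool.Agent.Lib.MP_1a91b9_nuT.P.Real

/-!
# Periods, file Unit: the product of the archimedean periods, valuations of the period
-/

set_option autoImplicit false

namespace Pool.Agent.Lib.MP_1a91b9_nuT.Per

variable [CD]

open NumberField

noncomputable section

theorem E_map {F F' : Type*} [Field F] [Field F'] (f : F →+* F') : (E F).map f = E F' := by
  rw [← cv_E, cv_map, map_intCast, map_intCast, cv_E]

theorem CR.base_real : CR Om (((CD.A : ℤ) : ℝ) : ℂ) (((CD.B : ℤ) : ℝ) : ℂ) := by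
  rw [Complex.ofReal_intCast, Complex.ofReal_intCast]
  exact CR.base

section

variable {O : ℂ} {a b : ℤ} (h : CR O (((a : ℤ) : ℝ) : ℂ) (((b : ℤ) : ℝ) : ℂ))

theorem perAt_cv_real {N : Type*} [Field N] {v : InfinitePlace N} (hv : v.IsReal) (a b : ℤ) :
    perAt (cv (a : N) (b : N)) v = perR (cv (a : ℝ) (b : ℝ)) := by
  rw [perAt, dif_pos hv, cv_map, map_intCast, map_intCast]

include h

theorem perAt_cv_complex {N : Type*} [Field N] {v : InfinitePlace N} (hv : ¬ v.IsReal) :
    perAt (cv (a : N) (b : N)) v = sd * ‖O‖ ^ 2 := by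
  rw [Complex.ofReal_intCast, Complex.ofReal_intCast] at h
  rw [perAt, dif_neg hv, cv_map, map_intCast, map_intCast, perC_cv h]
  ring

/-- The product of the periods of `y² = x³ + a x + b`. -/
theorem prod_cv (N : Type*) [Field N] [NumberField N] :
    ∏ v : InfinitePlace N, perAt (cv (a : N) (b : N)) v =
      perR (cv (a : ℝ) (b : ℝ)) ^ InfinitePlace.nrRealPlaces N *
        (sd * ‖O‖ ^ 2) ^ InfinitePlace.nrComplexPlaces N := by
  classical
  have h : ∀ v : InfinitePlace N, perAt (cv (a : N) (b : N)) v =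
      if v.IsReal then perR (cv (a : ℝ) (b : ℝ)) else sd * ‖O‖ ^ 2 := by
    intro v
    split_ifs with hv
    · exact perAt_cv_real hv a b
    · exact perAt_cv_complex h hv
  simp only [h]
  rw [Finset.prod_ite, Finset.prod_const, Finset.prod_const]
  congr 2
  · rw [InfinitePlace.nrRealPlaces, Fintype.card_subtype]
  · rw [InfinitePlace.nrComplexPlaces, Fintype.card_subtype]
    congr 1
    ext v
    simp only [Finset.mem_filter, Finset.mem_univ, true_and]
    exact InfinitePlace.not_isReal_iff_isComplex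

theorem prod_cv_pos (N : Type*) [Field N] [NumberField N] :
    0 < ∏ v : InfinitePlace N, perAt (cv (a : N) (b : N)) v := by
  rw [prod_cv h]
  have h1 := (perR_cv h).1
  have h2 := sd_pos
  have h3 : 0 < ‖O‖ := norm_pos_iff.2 h.ne
  positivity

end

/-- The product of the periods of `E`. -/
theorem prod_perAt (N : Type*) [Field N] [NumberField N] :
    ∏ v : InfinitePlace N, perAt (E N) v =
      perR (E ℝ) ^ InfinitePlace.nrRealPlaces N *
        (sd * ‖Om‖ ^ 2) ^ InfinitePlace.nrComplexPlaces N := prod_cv CR.base_real N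

theorem prod_perAt_pos (N : Type*) [Field N] [NumberField N] :
    0 < ∏ v : InfinitePlace N, perAt (E N) v := prod_cv_pos CR.base_real N

section unit

variable {O : ℂ} {a b : ℝ} (h : CR O (a : ℂ) (b : ℂ))

include h

/-- `conj O / O` is a unit of `𝓞 K`. -/
theorem exists_eps : ∃ u : (𝓞 K)ˣ, embK ((u : 𝓞 K) : K) = eps O := by
  have h1 := eps_mem h 1 S3.one_mem
  have h2 := eps_inv_mem h 1 S3.one_mem
  rw [mul_one] at h1 h2
  obtain ⟨a, ha⟩ := S3.mem_PP_iff.1 h1
  obtain ⟨b, hb⟩ := S3.mem_PP_iff.1 h2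
  have hab : a * b = 1 := by
    apply RingOfIntegers.ext
    apply embK.toRingHom.injective
    show embK ((a : K) * (b : K)) = embK ((1 : 𝓞 K) : K)
    have e1 : embK ((1 : 𝓞 K) : K) = 1 := map_one embK
    rw [map_mul, ha, hb, mul_inv_cancel₀ (eps_ne h.ne), e1]
  exact ⟨⟨a, b, hab, by rw [mul_comm, hab]⟩, ha⟩

end unit

section val

variable {A : ValuationSubring ℂ}

theorem embK_mem_A (a : 𝓞 K) : embK (a : K) ∈ A := by
  have h1 : IsIntegral ℤ (embK (a : K)) := (RingOfIntegers.isIntegral_coe a).map (embK.restrictScalars ℤ)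
  have h2 : IsIntegral A (embK (a : K)) := h1.tower_top
  obtain ⟨y, hy⟩ := (IsIntegrallyClosed.isIntegral_iff (R := A) (K := ℂ)).1 h2
  rw [← hy]
  exact y.2

theorem val_unit (u : (𝓞 K)ˣ) : A.valuation (embK ((u : 𝓞 K) : K)) = 1 := by
  have h0 : embK ((u : 𝓞 K) : K) * embK (((u⁻¹ : (𝓞 K)ˣ) : 𝓞 K) : K) = 1 := by
    rw [← map_mul]
    have e1 : ((u : 𝓞 K) : K) * (((u⁻¹ : (𝓞 K)ˣ) : 𝓞 K) : K) = 1 := by
      have := congrArg (algebraMap (𝓞 K) K) (Units.mul_inv u)
      rwa [map_mul, map_one] at this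
    rw [e1, map_one]
  have h1 : A.valuation (embK ((u : 𝓞 K) : K)) ≤ 1 := by
    rw [A.valuation_le_one_iff]
    exact embK_mem_A _
  have h2 : A.valuation (embK (((u⁻¹ : (𝓞 K)ˣ) : 𝓞 K) : K)) ≤ 1 := by
    rw [A.valuation_le_one_iff]
    exact embK_mem_A _
  have h3 := congrArg A.valuation h0
  rw [map_mul, map_one] at h3
  exact le_antisymm h1 (by
    rw [← h3]
    exact mul_le_of_le_one_right' h2)

variable {O : ℂ} {a b : ℝ} (h : CR O (a : ℂ) (b : ℂ))

include h

theorem val_eps : A.valuation (eps O) = 1 := by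
  obtain ⟨u, hu⟩ := exists_eps h
  rw [← hu]
  exact val_unit u

theorem val_norm : A.valuation ((‖O‖ : ℝ) : ℂ) = A.valuation O := by
  have h0 : ((‖O‖ : ℝ) : ℂ) ^ 2 = O ^ 2 * eps O := by
    rw [← Complex.ofReal_pow, ← Complex.normSq_eq_norm_sq, ← Complex.mul_conj, ← eps_mul h.ne]
    ring
  have h1 := congrArg A.valuation h0
  rw [map_pow, map_mul, map_pow, val_eps h, mul_one] at h1
  exact (pow_left_inj₀ zero_le zero_le (by norm_num)).1 h1

omit h in
theorem val_norm_Om : A.valuation ((‖Om‖ : ℝ) : ℂ) = A.valuation Om := val_norm CR.base_real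

end val

end

end Pool.Agent.Lib.MP_1a91b9_nuT.Per
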