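import Pool.Agent.Lib.MP_1a91b9_nuT.P.Unit

/-!
# Periods, file Lvalue: valuations of complex conjugates
-/

set_option autoImplicit false

namespace Pool.Agent.Lib.MP_1a91b9_nuT.Per

variable [CD]

open NumberField

universe u

section

variable {A : ValuationSubring ℂ}


theorem val_one_of {x : ℂ} (hx : x ≠ 0) (h1 : x ∈ A) (h2 : x⁻¹ ∈ A) : A.valuation x = 1 := by
  rw [← A.valuation_le_one_iff] at h1 h2
  rw [map_inv₀] at h2
  exact le_antisymm h1 ((inv_le_one₀ (zero_lt_iff.2 ((map_ne_zero _).2 hx))).1 h2)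

theorem of_val_one {x : ℂ} (h : A.valuation x = 1) : x ≠ 0 ∧ x ∈ A ∧ x⁻¹ ∈ A := by
  refine ⟨?_, ?_, ?_⟩
  · rintro rfl
    rw [map_zero] at h
    exact zero_ne_one h
  · rw [← A.valuation_le_one_iff, h]
  · rw [← A.valuation_le_one_iff, map_inv₀, h, inv_one]

theorem val_conj_Om : A.valuation ((starRingEnd ℂ) Om) = A.valuation Om := by
  have h := congrArg A.valuation (Complex.mul_conj Om)
  rw [Complex.normSq_eq_norm_sq, Complex.ofReal_pow, map_mul, map_pow, val_norm_Om, pow_two] at h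
  exact mul_left_cancel₀ ((map_ne_zero _).2 Om_ne) h

theorem val_conj {x : ℂ} (h : (A.comap (starRingEnd ℂ)).valuation x = 1) :
    A.valuation ((starRingEnd ℂ) x) = 1 := by
  obtain ⟨h0, h1, h2⟩ := of_val_one h
  rw [ValuationSubring.mem_comap] at h1 h2
  rw [map_inv₀] at h2
  exact val_one_of ((map_ne_zero _).2 h0) h1 h2

theorem val_of_div {x : ℂ} {n : ℕ} (h : A.valuation (x / Om ^ n) = 1) :
    A.valuation x = A.valuation Om ^ n := by
  rw [map_div₀, map_pow] at h
  exact (div_eq_one_iff_eq (pow_ne_zero _ ((map_ne_zero _).2 Om_ne))).1 h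

theorem val_conj_div {x : ℂ} {n : ℕ} (h : (A.comap (starRingEnd ℂ)).valuation (x / Om ^ n) = 1) :
    A.valuation ((starRingEnd ℂ) x) = A.valuation Om ^ n := by
  have h1 := val_conj h
  rw [map_div₀ (starRingEnd ℂ), map_pow, map_div₀, map_pow, val_conj_Om] at h1
  exact (div_eq_one_iff_eq (pow_ne_zero _ ((map_ne_zero _).2 Om_ne))).1 h1

end


end Pool.Agent.Lib.MP_1a91b9_nuT.Per
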