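import Pool.Agent.Lib.MP_1a91b9_nuT.P.Lvalue
import Pool.Agent.Lib.MP_1a91b9_nuT.S4.TwoAdic

/-!
# Periods, file Ratio: the quotient `L(E/N, 1) √|d| / Ω`

The values of the entire functions which agree with an L-series are real.
-/

set_option autoImplicit false

namespace Pool.Agent.Lib.MP_1a91b9_nuT.Per

variable [CD]

open NumberField Pool.Agent.Lib.MP_1a91b9_nuT.S4

private theorem differentiable_conj_conj {f : ℂ → ℂ} (hf : Differentiable ℂ f) :
    Differentiable ℂ fun s => (starRingEnd ℂ) (f ((starRingEnd ℂ) s)) := by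
  intro s
  have h := DifferentiableAt.conj_conj (hf ((starRingEnd ℂ) s))
  rw [Complex.conj_conj] at h
  exact h

/-! ### The L-series is real on the real axis -/

theorem LSeries_conj (f : ℕ → ℤ) (s : ℂ) : (starRingEnd ℂ) (LSeries ((↑) ∘ f) s) =
    LSeries ((↑) ∘ f) ((starRingEnd ℂ) s) := by
  rw [LSeries, LSeries, Complex.conj_tsum]
  refine tsum_congr fun n => ?_
  rw [LSeries.term_def, LSeries.term_def]
  split_ifs with h
  · exact map_zero _
  · rw [map_div₀, Complex.cpow_conj _ _ (by rw [Complex.natCast_arg]; exact Real.pi_pos.ne),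
      Complex.conj_natCast]
    congr 1
    exact map_intCast (starRingEnd ℂ) (f n)

theorem WLSeries_conj {F : Type*} [Field F] [NumberField F] (W : WeierstrassCurve F) (s : ℂ) :
    (starRingEnd ℂ) (W.LSeries s) = W.LSeries ((starRingEnd ℂ) s) := LSeries_conj _ s

theorem value_real {F : Type*} [Field F] [NumberField F] {W : WeierstrassCurve F} {g : ℂ → ℂ}
    (hg : Differentiable ℂ g) (hgs : ∀ s : ℂ, 2 < s.re → g s = W.LSeries s) :
    g 1 = ((g 1).re : ℂ) := by
  have h := entire_eq (differentiable_conj_conj hg) hg fun s hs => by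
    rw [hgs s hs, hgs _ (by rw [Complex.conj_re]; exact hs), WLSeries_conj, Complex.conj_conj]
  have h1 := congrFun h 1
  simp only [map_one] at h1
  exact (Complex.conj_eq_iff_re.1 h1).symm


end Pool.Agent.Lib.MP_1a91b9_nuT.Per
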