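import Pool.Agent.Lib.MP_1a91b9_nuT.S3.Grp
import Pool.Agent.Lib.MP_1a91b9_nuT.BaseK

/-!
# Periods, file Crv: curves `y² = x³ + a x + b` whose period lattice is homothetic to `𝓞 K`
-/

set_option autoImplicit false

namespace Pool.Agent.Lib.MP_1a91b9_nuT.Per

variable [CD]

/-- The period lattice of `y² = x³ + a x + b` is `O` times the lattice of `𝓞 K`. -/
structure CR (O a b : ℂ) : Prop where
  ne : O ≠ 0
  g2 : PP.g₂ = -4 * a * O ^ 4
  g3 : PP.g₃ = -4 * b * O ^ 6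

theorem CR.base : CR Om (cA ℂ) (cB ℂ) := ⟨Om_ne, g2_eq, g3_eq⟩

theorem CR.twist {O a b s : ℂ} (h : CR O a b) (hs : s ≠ 0) : CR (O / s) (a * s ^ 4) (b * s ^ 6) := by
  refine ⟨div_ne_zero h.ne hs, ?_, ?_⟩
  · rw [h.g2, div_pow]
    field_simp
  · rw [h.g3, div_pow]
    field_simp

theorem CR.diff_eq {O a b : ℂ} (h : CR O a b) {z : ℂ} (hz : z ∉ PP.lattice) :
    PP.derivWeierstrassP z ^ 2 = 4 * PP.weierstrassP z ^ 3 +
      4 * a * O ^ 4 * PP.weierstrassP z + 4 * b * O ^ 6 := by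
  rw [PP.derivWeierstrassP_sq z hz, h.g2, h.g3]
  ring

end Pool.Agent.Lib.MP_1a91b9_nuT.Per
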