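import Pool.Agent.Lib.MP_1a91b9_nuT.P.Fib
import Pool.Agent.Lib.MP_1a91b9_nuT.S3.Ring
import Pool.Agent.Lib.MP_1a91b9_nuX.UF.Ode

/-!
# Periods, file Conj: the period lattice `O 𝓞 K` of a real curve is stable under the conjugation

`y² = x³ + a x + b`, `a b` real, has the period lattice `O 𝓞 K`. `inL O u` : `u` is in the lattice
`O 𝓞 K`; `xx O`, `yy O` the parametrisation with `xx' = yy`, `yy² = 4 (xx³ + a xx + b)`.
`conj O = eps O * O`, `eps O` a unit of `𝓞 K`.
-/

set_option autoImplicit false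

namespace Pool.Agent.Lib.MP_1a91b9_nuT.Per

variable [CD]

open Complex Filter Topology Set NumberField

noncomputable section

/-- The quotient of `conj O` and `O`. -/
def eps (O : ℂ) : ℂ := (starRingEnd ℂ) O / O

/-- `u` is in the lattice `O 𝓞 K`. -/
def inL (O u : ℂ) : Prop := u / O ∈ PP.lattice

/-- The coordinate `x`. -/
def xx (O u : ℂ) : ℂ := PP.weierstrassP (u / O) / O ^ 2

/-- Twice the coordinate `y`. -/
def yy (O u : ℂ) : ℂ := PP.derivWeierstrassP (u / O) / O ^ 3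

theorem inL_zero (O : ℂ) : inL O 0 := by
  rw [inL, zero_div]
  exact zero_mem _

theorem inL_two_zero (O : ℂ) : inL O (2 * 0) := by
  rw [mul_zero]
  exact inL_zero O

theorem inL_add {O u v : ℂ} (hu : inL O u) (hv : inL O v) : inL O (u + v) := by
  rw [inL, add_div]
  exact add_mem hu hv

theorem inL_neg {O u : ℂ} (hu : inL O u) : inL O (-u) := by
  rw [inL, neg_div]
  exact neg_mem hu

theorem inL_sub {O u v : ℂ} (hu : inL O u) (hv : inL O v) : inL O (u - v) := by
  rw [inL, sub_div]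
  exact sub_mem hu hv

theorem inL_int {O u : ℂ} (hu : inL O u) (m : ℤ) : inL O (m * u) := by
  rw [inL, mul_div_assoc]
  exact S3.mul_mem (S3.int_mem m) hu

theorem inL_two {O u : ℂ} (hu : inL O u) : inL O (2 * u) := by
  rw [two_mul]
  exact inL_add hu hu

theorem xx_neg (O u : ℂ) : xx O (-u) = xx O u := by
  rw [xx, xx, neg_div, PP.weierstrassP_neg]

theorem yy_neg (O u : ℂ) : yy O (-u) = -yy O u := by
  rw [yy, yy, neg_div, PP.derivWeierstrassP_neg, neg_div]

theorem xx_add {O l : ℂ} (hl : inL O l) (u : ℂ) : xx O (u + l) = xx O u := by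
  rw [xx, xx, add_div, S3.P_add hl]

theorem yy_add {O l : ℂ} (hl : inL O l) (u : ℂ) : yy O (u + l) = yy O u := by
  rw [yy, yy, add_div, S3.Q_add hl]

theorem yy_half {O u : ℂ} (hu : inL O (2 * u)) : yy O u = 0 := by
  have h : 2 * (u / O) ∈ PP.lattice := by
    rw [← mul_div_assoc]
    exact hu
  rw [yy, S3.Q_half h, zero_div]

section ne

variable {O : ℂ} (h0 : O ≠ 0)

include h0

theorem conj_O_ne : (starRingEnd ℂ) O ≠ 0 := (map_ne_zero_iff _ (RingHom.injective _)).2 h0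

theorem eps_ne : eps O ≠ 0 := div_ne_zero (conj_O_ne h0) h0

theorem eps_mul : eps O * O = (starRingEnd ℂ) O := div_mul_cancel₀ _ h0

theorem conj_div (u : ℂ) : (starRingEnd ℂ) u / O = eps O * (starRingEnd ℂ) (u / O) := by
  have h := conj_O_ne h0
  rw [eps, map_div₀]
  field_simp

theorem inL_mul {l : ℂ} (hl : l ∈ PP.lattice) : inL O (l * O) := by
  rw [inL, mul_div_cancel_right₀ _ h0]
  exact hl

theorem hasDerivAt_xx {u : ℂ} (hu : ¬ inL O u) : HasDerivAt (xx O) (yy O u) u := by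
  have h1 := (S3.hasDerivAt_P hu).div_const (O ^ 2)
  have h2 : HasDerivAt (fun w : ℂ => w / O) (1 / O) u := (hasDerivAt_id u).div_const O
  have h3 := HasDerivAt.comp (h₂ := fun z => PP.weierstrassP z / O ^ 2) u h1 h2
  refine h3.congr_deriv ?_
  rw [yy]
  field_simp

theorem yy_ne {u : ℂ} (hu : ¬ inL O (2 * u)) : yy O u ≠ 0 := by
  have h : 2 * (u / O) ∉ PP.lattice := by
    rw [← mul_div_assoc]
    exact hu
  exact div_ne_zero (Q_ne h) (pow_ne_zero 3 h0)

theorem xx_inj {u v : ℂ} (hu : ¬ inL O (2 * u)) (hv : ¬ inL O v) (h : xx O v = xx O u) :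
    inL O (v - u) ∨ inL O (v + u) := by
  have h1 : 2 * (u / O) ∉ PP.lattice := by
    rw [← mul_div_assoc]
    exact hu
  rw [xx, xx] at h
  have h2 := (div_left_inj' (pow_ne_zero 2 h0)).1 h
  rcases P_inj h1 hv h2 with h3 | h3
  · left
    rwa [inL, sub_div]
  · right
    rwa [inL, add_div]

theorem xx_surj (c : ℂ) : ∃ u, ¬ inL O u ∧ xx O u = c := by
  obtain ⟨z, hz, h⟩ := P_surj (c * O ^ 2)
  have e : z * O / O = z := mul_div_cancel_right₀ _ h0
  refine ⟨z * O, ?_, ?_⟩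
  · rw [inL, e]
    exact hz
  · rw [xx, e, h, mul_div_cancel_right₀ _ (pow_ne_zero 2 h0)]

/-! ### The periods on a line -/

theorem gen_line {v : ℂ} (hv : v ≠ 0) {s : ℝ} (hs : s ≠ 0) (h : inL O (s * v)) :
    ∃ w : ℝ, 0 < w ∧ ∀ t : ℝ, inL O (t * v) ↔ ∃ m : ℤ, t = m * w := by
  let G : AddSubgroup ℝ :=
    { carrier := {t | inL O (t * v)}
      zero_mem' := by
        show inL O (((0 : ℝ) : ℂ) * v)
        rw [Complex.ofReal_zero, zero_mul]
        exact inL_zero O
      add_mem' := by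
        intro a b ha hb
        show inL O (((a + b : ℝ) : ℂ) * v)
        rw [Complex.ofReal_add, add_mul]
        exact inL_add ha hb
      neg_mem' := by
        intro a ha
        show inL O (((-a : ℝ) : ℂ) * v)
        rw [Complex.ofReal_neg, neg_mul]
        exact inL_neg ha }
  have hG : ∀ t, t ∈ G ↔ inL O (t * v) := fun t => Iff.rfl
  have hcont : Continuous fun t : ℝ => (t : ℂ) * v / O := by fun_prop
  rcases AddSubgroup.dense_or_cyclic G with hd | ⟨a, ha⟩
  · exfalso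
    have hcl : IsClosed (G : Set ℝ) := PP.isClosed_lattice.preimage hcont
    have hall : (G : Set ℝ) = univ := by
      rw [← hcl.closure_eq]
      exact hd.closure_eq
    have ht : Tendsto (fun t : ℝ => (t : ℂ) * v / O) (𝓝[≠] 0) (𝓝[≠] 0) := by
      rw [tendsto_nhdsWithin_iff]
      constructor
      · have h3 := hcont.tendsto 0
        rw [Complex.ofReal_zero, zero_mul, zero_div] at h3
        exact h3.mono_left nhdsWithin_le_nhds
      · filter_upwards [self_mem_nhdsWithin] with t ht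
        have ht0 : t ≠ 0 := ht
        exact div_ne_zero (mul_ne_zero (Complex.ofReal_ne_zero.2 ht0) hv) h0
    obtain ⟨t, ht2⟩ := (ht.eventually (S3.eventually_notMem 0)).exists
    have ht3 : t ∈ (G : Set ℝ) := by rw [hall]; trivial
    exact ht2 ht3
  · have ha0 : a ≠ 0 := by
      rintro rfl
      have h1 : s ∈ G := h
      rw [ha, AddSubgroup.mem_closure_singleton] at h1
      obtain ⟨n, hn⟩ := h1
      rw [smul_zero] at hn
      exact hs hn.symm
    refine ⟨|a|, abs_pos.2 ha0, fun t => ?_⟩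
    rw [← hG, ha, AddSubgroup.mem_closure_singleton]
    rcases abs_choice a with hc | hc
    · rw [hc]
      constructor
      · rintro ⟨n, hn⟩
        exact ⟨n, by rw [← hn, zsmul_eq_mul]⟩
      · rintro ⟨n, hn⟩
        exact ⟨n, by rw [hn, zsmul_eq_mul]⟩
    · rw [hc]
      constructor
      · rintro ⟨n, hn⟩
        exact ⟨-n, by rw [← hn, zsmul_eq_mul]; push_cast; ring⟩
      · rintro ⟨n, hn⟩
        exact ⟨-n, by rw [hn, zsmul_eq_mul]; push_cast; ring⟩

end ne

theorem yy_sq {O a b : ℂ} (h : CR O a b) {u : ℂ} (hu : ¬ inL O u) :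
    yy O u ^ 2 = ff a b (xx O u) := by
  have h0 := h.ne
  rw [yy, xx, div_pow, h.diff_eq hu, ff]
  field_simp

theorem stable_unit {O a b t : ℂ} (h : CR O a b) (ht : t ≠ 0) (hA : a * O ^ 4 * t ^ 4 = a * O ^ 4)
    (hB : b * O ^ 6 * t ^ 6 = b * O ^ 6) (l : ℂ) (hl : l ∈ PP.lattice) :
    t * l ∈ PP.lattice := by
  refine Pool.Agent.Lib.MP_1a91b9_nuX.UF.stable (L := PP) (A := a * O ^ 4)
    (B := b * O ^ 6) ht (by rw [h.g2]; ring) (by rw [h.g3]; ring) (N := Polynomial.X)
    (D := Polynomial.C (t ^ 2)) Polynomial.monic_X (Polynomial.leadingCoeff_C _)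
    (by rw [Polynomial.natDegree_X, Polynomial.natDegree_C]) ?_ l hl
  have h1 := congrArg (Polynomial.C : ℂ → Polynomial ℂ) hA
  have h2 := congrArg (Polynomial.C : ℂ → Polynomial ℂ) hB
  rw [Polynomial.derivative_X, Polynomial.derivative_C]
  simp only [map_mul, map_pow] at h1 h2 ⊢
  linear_combination -(Polynomial.C t ^ 4 * Polynomial.X) * h1 - Polynomial.C t ^ 4 * h2

section real

variable {O : ℂ} {a b : ℝ} (h : CR O (a : ℂ) (b : ℂ))

include h

theorem eps_A : (a : ℂ) * O ^ 4 * eps O ^ 4 = a * O ^ 4 := by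
  have h1 := g2_conj
  rw [h.g2, map_mul, map_mul, map_neg, map_pow, Complex.conj_ofReal, Complex.conj_ofNat,
    ← eps_mul h.ne] at h1
  linear_combination -h1 / 4

theorem eps_B : (b : ℂ) * O ^ 6 * eps O ^ 6 = b * O ^ 6 := by
  have h1 := g3_conj
  rw [h.g3, map_mul, map_mul, map_neg, map_pow, Complex.conj_ofReal, Complex.conj_ofNat,
    ← eps_mul h.ne] at h1
  linear_combination -h1 / 4

theorem eps_mem (l : ℂ) (hl : l ∈ PP.lattice) : eps O * l ∈ PP.lattice :=
  stable_unit h (eps_ne h.ne) (eps_A h) (eps_B h) l hl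

theorem eps_inv_mem (l : ℂ) (hl : l ∈ PP.lattice) : (eps O)⁻¹ * l ∈ PP.lattice := by
  refine stable_unit h (inv_ne_zero (eps_ne h.ne)) ?_ ?_ l hl
  · have h1 := eps_A h
    have h2 := pow_ne_zero 4 (eps_ne h.ne)
    rw [inv_pow, ← div_eq_mul_inv, div_eq_iff h2]
    exact h1.symm
  · have h1 := eps_B h
    have h2 := pow_ne_zero 6 (eps_ne h.ne)
    rw [inv_pow, ← div_eq_mul_inv, div_eq_iff h2]
    exact h1.symm

theorem inL_conj {u : ℂ} (hu : inL O u) : inL O ((starRingEnd ℂ) u) := by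
  rw [inL, conj_div h.ne]
  exact eps_mem h _ (S3.conj_mem hu)

theorem xx_conj (u : ℂ) : xx O ((starRingEnd ℂ) u) = (starRingEnd ℂ) (xx O u) := by
  rw [xx, xx, conj_div h.ne, P_unit (eps_mem h) (eps_inv_mem h) (eps_ne h.ne), P_conj, map_div₀,
    map_pow, ← eps_mul h.ne, mul_pow, div_div]

theorem yy_conj (u : ℂ) : yy O ((starRingEnd ℂ) u) = (starRingEnd ℂ) (yy O u) := by
  rw [yy, yy, conj_div h.ne, Q_unit (eps_mem h) (eps_inv_mem h) (eps_ne h.ne), Q_conj, map_div₀,
    map_pow, ← eps_mul h.ne, mul_pow, div_div]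

theorem real_period : ∃ w : ℝ, 0 < w ∧ ∀ t : ℝ, inL O t ↔ ∃ m : ℤ, t = m * w := by
  have key : ∀ l : ℂ, inL O l → l.re ≠ 0 → ∃ s : ℝ, s ≠ 0 ∧ inL O s := by
    intro l hl h0
    refine ⟨2 * l.re, mul_ne_zero two_ne_zero h0, ?_⟩
    have h2 := inL_add hl (inL_conj h hl)
    rw [Complex.add_conj] at h2
    exact h2
  have h1 : ∃ s : ℝ, s ≠ 0 ∧ inL O s := by
    by_cases h0 : O.re = 0
    · refine key (zt * O) (inL_mul h.ne S3.zt_mem) ?_
      have h3 : O.im ≠ 0 := fun h4 => h.ne (Complex.ext h0 h4)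
      rw [Complex.mul_re, h0, mul_zero, zero_sub]
      exact neg_ne_zero.2 (mul_ne_zero zt_ne h3)
    · refine key O ?_ h0
      have := inL_mul h.ne S3.one_mem
      rwa [one_mul] at this
  obtain ⟨s, hs, hsL⟩ := h1
  obtain ⟨w, hw, h⟩ := gen_line h.ne one_ne_zero hs (by rwa [mul_one])
  refine ⟨w, hw, fun t => ?_⟩
  rw [← h t, mul_one]

theorem imag_period : ∃ w : ℝ, 0 < w ∧ ∀ t : ℝ, inL O (t * I) ↔ ∃ m : ℤ, t = m * w := by
  have key : ∀ l : ℂ, inL O l → l.im ≠ 0 → ∃ s : ℝ, s ≠ 0 ∧ inL O (s * I) := by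
    intro l hl h0
    refine ⟨2 * l.im, mul_ne_zero two_ne_zero h0, ?_⟩
    have h2 := inL_sub hl (inL_conj h hl)
    rw [Complex.sub_conj] at h2
    exact h2
  have h1 : ∃ s : ℝ, s ≠ 0 ∧ inL O (s * I) := by
    by_cases h0 : O.im = 0
    · refine key (zt * O) (inL_mul h.ne S3.zt_mem) ?_
      have h3 : O.re ≠ 0 := fun h4 => h.ne (Complex.ext h4 h0)
      rw [Complex.mul_im, h0, mul_zero, zero_add]
      exact mul_ne_zero zt_ne h3
    · refine key O ?_ h0
      have := inL_mul h.ne S3.one_mem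
      rwa [one_mul] at this
  obtain ⟨s, hs, hsL⟩ := h1
  exact gen_line h.ne Complex.I_ne_zero hs hsL

end real

end

end Pool.Agent.Lib.MP_1a91b9_nuT.Per
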