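import Pool.Agent.Lib.MP_1a91b9_nuT.P.Wp

/-!
# Periods, file Coord: coordinates with respect to the basis `1, zt`, volumes
-/

set_option autoImplicit false

namespace Pool.Agent.Lib.MP_1a91b9_nuT.Per

variable [CD]

open Complex MeasureTheory Set

noncomputable section

/-- The second coordinate. -/
def tt (z : ℂ) : ℝ := z.im / zt.im

/-- The first coordinate. -/
def ss (z : ℂ) : ℝ := z.re - tt z * zt.re

theorem coord (z : ℂ) : (ss z : ℂ) + tt z * zt = z := by
  have h := S3.zt_im_ne_zero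
  apply Complex.ext
  · simp [ss]
  · simp [tt]
    field_simp

theorem tt_mk (s t : ℝ) : tt ((s : ℂ) + t * zt) = t := by
  have h := S3.zt_im_ne_zero
  simp [tt]
  field_simp

theorem ss_mk (s t : ℝ) : ss ((s : ℂ) + t * zt) = s := by
  rw [ss, tt_mk]
  simp

theorem tt_add (z w : ℂ) : tt (z + w) = tt z + tt w := by
  rw [tt, tt, tt, Complex.add_im, add_div]

theorem tt_sub (z w : ℂ) : tt (z - w) = tt z - tt w := by
  rw [tt, tt, tt, Complex.sub_im, sub_div]


theorem ss_sub (z w : ℂ) : ss (z - w) = ss z - ss w := by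
  rw [ss, ss, ss, tt_sub, Complex.sub_re]
  ring

theorem mem_coord {z : ℂ} : z ∈ PP.lattice ↔ (∃ m : ℤ, ss z = m) ∧ ∃ n : ℤ, tt z = n := by
  rw [S3.mem_PP]
  constructor
  · rintro ⟨m, n, rfl⟩
    have h1 : (m : ℂ) + n * zt = ((m : ℝ) : ℂ) + ((n : ℝ) : ℂ) * zt := by push_cast; rfl
    rw [h1, ss_mk, tt_mk]
    exact ⟨⟨m, rfl⟩, ⟨n, rfl⟩⟩
  · rintro ⟨⟨m, hm⟩, ⟨n, hn⟩⟩
    refine ⟨m, n, ?_⟩
    conv_rhs => rw [← coord z, hm, hn]
    push_cast
    rfl

theorem continuous_tt : Continuous tt := by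
  unfold tt
  fun_prop

theorem continuous_ss : Continuous ss := by
  unfold ss
  have := continuous_tt
  fun_prop

/-- The linear map `x + i y ↦ x + y zt`. -/
def AA : ℂ →ₗ[ℝ] ℂ where
  toFun z := (z.re : ℂ) + z.im * zt
  map_add' z w := by
    rw [Complex.add_re, Complex.add_im]
    push_cast
    ring
  map_smul' c z := by
    rw [Complex.smul_re, Complex.smul_im, RingHom.id_apply, Complex.real_smul]
    simp only [smul_eq_mul]
    push_cast
    ring

theorem AA_apply (z : ℂ) : AA z = (z.re : ℂ) + z.im * zt := rfl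

theorem det_AA : LinearMap.det AA = zt.im := by
  rw [← LinearMap.det_toMatrix Complex.basisOneI, Matrix.det_fin_two]
  simp [LinearMap.toMatrix_apply, AA_apply]

theorem box_eq (S T : Set ℝ) : {z : ℂ | ss z ∈ S ∧ tt z ∈ T} =
    AA '' {z : ℂ | z.re ∈ S ∧ z.im ∈ T} := by
  ext z
  constructor
  · rintro ⟨h1, h2⟩
    refine ⟨⟨ss z, tt z⟩, ⟨h1, h2⟩, ?_⟩
    rw [AA_apply]
    exact coord z
  · rintro ⟨w, ⟨h1, h2⟩, rfl⟩
    rw [AA_apply]
    show ss _ ∈ S ∧ tt _ ∈ T
    rw [ss_mk, tt_mk]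
    exact ⟨h1, h2⟩

theorem vol_rect {S T : Set ℝ} (hS : MeasurableSet S) (hT : MeasurableSet T) :
    volume {z : ℂ | z.re ∈ S ∧ z.im ∈ T} = volume S * volume T := by
  have h1 := Complex.volume_preserving_equiv_real_prod.measure_preimage
    (hS.prod hT).nullMeasurableSet
  rw [Measure.volume_eq_prod, Measure.prod_prod] at h1
  rw [← h1]
  rfl

theorem vol_box {S T : Set ℝ} (hS : MeasurableSet S) (hT : MeasurableSet T) :
    volume {z : ℂ | ss z ∈ S ∧ tt z ∈ T} =
      ENNReal.ofReal |zt.im| * (volume S * volume T) := by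
  rw [box_eq, Measure.addHaar_image_linearMap, det_AA, vol_rect hS hT]

end

end Pool.Agent.Lib.MP_1a91b9_nuT.Per
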