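import Pool.Agent.Lib.MP_1a91b9_nuT.P.Defs
import Pool.Agent.Lib.MP_1a91b9_nuT.P.Area

/-!
# Periods, file Fib: sums over the fibres of `x`, the complex period
-/

set_option autoImplicit false

namespace Pool.Agent.Lib.MP_1a91b9_nuT.Per

variable [CD]

open MeasureTheory

noncomputable section

/-- The polynomial `4 (x³ + a x + b)`. -/
def ff {F : Type*} [Field F] (a b x : F) : F := 4 * (x ^ 3 + a * x + b)

/-- The curve `y² = x³ + a x + b`. -/
def cv {F : Type*} [Field F] (a b : F) : WeierstrassCurve F := ⟨0, 0, 0, a, b⟩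

omit [CD] in
theorem cv_map {F F' : Type*} [Field F] [Field F'] (f : F →+* F') (a b : F) :
    (cv a b).map f = cv (f a) (f b) := by
  ext
  · exact map_zero f
  · exact map_zero f
  · exact map_zero f
  · rfl
  · rfl

theorem cv_E (F : Type*) [Field F] : cv (cA F) (cB F) = E F := rfl

omit [CD] in
theorem cv_eq {F : Type*} [Field F] {a b x y : F} :
    (cv a b).toAffine.Equation x y ↔ y ^ 2 = x ^ 3 + a * x + b := by
  rw [WeierstrassCurve.Affine.equation_iff]
  show y ^ 2 + 0 * x * y + 0 * y = x ^ 3 + 0 * x ^ 2 + a * x + b ↔ _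
  constructor <;> intro h <;> linear_combination h

omit [CD] in
theorem cv_iff {F : Type*} [Field F] [CharZero F] {a b x y d : F} (hd : d ^ 2 = ff a b x) :
    (cv a b).toAffine.Equation x y ↔ y = d / 2 ∨ y = -(d / 2) := by
  rw [cv_eq]
  rw [ff] at hd
  constructor
  · intro h
    have h1 : (2 * y - d) * (2 * y + d) = 0 := by linear_combination 4 * h - hd
    rcases mul_eq_zero.1 h1 with h2 | h2
    · left
      linear_combination h2 / 2
    · right
      linear_combination h2 / 2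
  · rintro (rfl | rfl)
    · linear_combination hd / 4
    · linear_combination hd / 4

omit [CD] in
theorem fib_sum {F : Type*} [Field F] [CharZero F] {a b x d : F} (hd : d ^ 2 = ff a b x)
    (h0 : d ≠ 0) (f : F → ℝ) :
    ∑' y : {y : F // (cv a b).toAffine.Equation x y}, f y = f (d / 2) + f (-(d / 2)) := by
  classical
  have hne : d / 2 ≠ -(d / 2) := by
    intro h
    apply h0
    linear_combination h
  have e : {y : F | (cv a b).toAffine.Equation x y} =
      (({d / 2, -(d / 2)} : Finset F) : Set F) := by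
    ext y
    rw [Finset.coe_pair, Set.mem_ofPred_eq, cv_iff hd]
    rfl
  show ∑' y : ({y : F | (cv a b).toAffine.Equation x y} : Set F), f y = _
  rw [e, Finset.tsum_subtype', Finset.sum_pair hne]

omit [CD] in
theorem fib_sum_zero {F : Type*} [Field F] [CharZero F] {a b x : F} (hx : ff a b x = 0)
    (f : F → ℝ) (hf : f 0 = 0) :
    ∑' y : {y : F // (cv a b).toAffine.Equation x y}, f y = 0 := by
  have h : ∀ y : {y : F // (cv a b).toAffine.Equation x y}, f y = 0 := by
    rintro ⟨y, hy⟩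
    have hd : (0 : F) ^ 2 = ff a b x := by rw [hx]; ring
    rw [cv_iff hd, zero_div, neg_zero, or_self] at hy
    show f y = 0
    rw [hy, hf]
  rw [tsum_congr h, tsum_zero]

omit [CD] in
theorem fib_C (a b x : ℂ) : ∑' y : {y : ℂ // (cv a b).toAffine.Equation x y},
    (‖2 * (y : ℂ) + (cv a b).a₁ * x + (cv a b).a₃‖ ^ 2)⁻¹ = 2 * ‖ff a b x‖⁻¹ := by
  show ∑' y : {y : ℂ // (cv a b).toAffine.Equation x y}, (‖2 * (y : ℂ) + 0 * x + 0‖ ^ 2)⁻¹ = _
  rcases eq_or_ne (ff a b x) 0 with h | h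
  · rw [h, fib_sum_zero h (fun y => (‖2 * (y : ℂ) + 0 * x + 0‖ ^ 2)⁻¹) (by norm_num)]
    norm_num
  · obtain ⟨d, hd⟩ := IsAlgClosed.exists_pow_nat_eq (ff a b x) (n := 2) (by norm_num)
    have h0 : d ≠ 0 := by
      rintro rfl
      apply h
      rw [← hd]
      ring
    rw [fib_sum hd h0 (fun y => (‖2 * (y : ℂ) + 0 * x + 0‖ ^ 2)⁻¹)]
    have e1 : 2 * (d / 2) + 0 * x + 0 = d := by ring
    have e2 : 2 * (-(d / 2)) + 0 * x + 0 = -d := by ring
    rw [e1, e2, norm_neg, ← norm_pow, hd, two_mul]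

omit [CD] in
theorem fib_R (a b x : ℝ) : ∑' y : {y : ℝ // (cv a b).toAffine.Equation x y},
    |2 * (y : ℝ) + (cv a b).a₁ * x + (cv a b).a₃|⁻¹ = 2 * (Real.sqrt (ff a b x))⁻¹ := by
  show ∑' y : {y : ℝ // (cv a b).toAffine.Equation x y}, |2 * (y : ℝ) + 0 * x + 0|⁻¹ = _
  rcases lt_trichotomy (ff a b x) 0 with h | h | h
  · have he : IsEmpty {y : ℝ // (cv a b).toAffine.Equation x y} := by
      refine ⟨?_⟩
      rintro ⟨y, hy⟩
      rw [cv_eq] at hy
      rw [ff, ← hy] at h
      nlinarith [sq_nonneg y]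
    rw [tsum_empty, Real.sqrt_eq_zero_of_nonpos h.le]
    norm_num
  · rw [h, fib_sum_zero h (fun y => |2 * (y : ℝ) + 0 * x + 0|⁻¹) (by norm_num)]
    norm_num
  · have hd := Real.sq_sqrt h.le
    have h0 := Real.sqrt_pos.2 h
    rw [fib_sum hd h0.ne' (fun y => |2 * (y : ℝ) + 0 * x + 0|⁻¹)]
    have e1 : 2 * (√(ff a b x) / 2) + 0 * x + 0 = √(ff a b x) := by ring
    have e2 : 2 * (-(√(ff a b x) / 2)) + 0 * x + 0 = -√(ff a b x) := by ring
    rw [e1, e2, abs_neg, abs_of_pos h0, two_mul]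

/-- The complex period. -/
theorem perC_cv {O a b : ℂ} (h : CR O a b) : perC (cv a b) = sd / 2 * ‖O‖ ^ 2 := by
  rw [perC]
  simp only [fib_C, ff]
  rw [integral_const_mul, integral_g h]
  ring

theorem perC_E : perC (E ℂ) = sd / 2 * ‖Om‖ ^ 2 := perC_cv CR.base

end

end Pool.Agent.Lib.MP_1a91b9_nuT.Per
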