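import Pool.Agent.Lib.MP_1a91b9_nuT.P.Conj

/-!
# Periods, file Real: the real period of a curve `y² = x³ + a x + b` with the lattice `O 𝓞 K`

`w` generates the real periods, `I η` the imaginary ones. For `c = 0` and `c = I η / 2` the function
`t ↦ xx (t + c)` is real, injective on `(0, w / 2)`, with nonvanishing derivative; the two images are
equal or disjoint and their union is the set of the `x` with `x³ + a x + b > 0`. So the real period is
`w` or `2 w`. `w = O y` with `y ∈ 𝓞 K` primitive; the norm of `y` is prime to the prime numbers which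
do not divide the discriminant of `K`.
-/

set_option autoImplicit false

namespace Pool.Agent.Lib.MP_1a91b9_nuT.Per

variable [CD]

open MeasureTheory Complex Filter Topology Set NumberField

noncomputable section

/-- the real function `xx (t + c)` -/
def ph (O c : ℂ) (t : ℝ) : ℝ := (xx O (t + c)).re

/-- the real function `yy (t + c)` -/
def ps (O c : ℂ) (t : ℝ) : ℝ := (yy O (t + c)).re

section line

variable {O : ℂ} {a b : ℝ} (h : CR O (a : ℂ) (b : ℂ)) {c : ℂ} (hc : (starRingEnd ℂ) c = -c)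
  (hc2 : inL O (2 * c))

include h hc hc2

theorem ph_eq (t : ℝ) : (ph O c t : ℂ) = xx O (t + c) := by
  have h1 := xx_conj h (t + c)
  have e : (starRingEnd ℂ) ((t : ℂ) + c) = (t + c) + -(2 * c) := by
    rw [map_add, Complex.conj_ofReal, hc]
    ring
  rw [e, xx_add (inL_neg hc2)] at h1
  exact Complex.conj_eq_iff_re.1 h1.symm

theorem ps_eq (t : ℝ) : (ps O c t : ℂ) = yy O (t + c) := by
  have h1 := yy_conj h (t + c)
  have e : (starRingEnd ℂ) ((t : ℂ) + c) = (t + c) + -(2 * c) := by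
    rw [map_add, Complex.conj_ofReal, hc]
    ring
  rw [e, yy_add (inL_neg hc2)] at h1
  exact Complex.conj_eq_iff_re.1 h1.symm

omit hc hc2 in
theorem hasDerivAt_ph {t : ℝ} (ht : ¬ inL O (t + c)) : HasDerivAt (ph O c) (ps O c t) t := by
  have h1 : HasDerivAt (fun z : ℂ => xx O (z + c)) (yy O (t + c)) (t : ℂ) :=
    (hasDerivAt_xx h.ne ht).comp_add_const (t : ℂ) c
  exact h1.real_of_complex

theorem ps_sq {t : ℝ} (ht : ¬ inL O (t + c)) : ps O c t ^ 2 = ff a b (ph O c t) := by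
  have h1 := yy_sq h ht
  rw [← ps_eq h hc hc2, ← ph_eq h hc hc2] at h1
  rw [ff] at h1 ⊢
  have h2 : ((ps O c t ^ 2 : ℝ) : ℂ) = ((4 * (ph O c t ^ 3 + a * ph O c t + b) : ℝ) : ℂ) := by
    push_cast
    exact h1
  exact_mod_cast h2

variable {w : ℝ} (hw : 0 < w) (hwL : ∀ t : ℝ, inL O t ↔ ∃ m : ℤ, t = m * w)

include hw hwL

omit h hc in
theorem two_iff (t : ℝ) : inL O (2 * ((t : ℂ) + c)) ↔ ∃ m : ℤ, 2 * t = m * w := by
  rw [← hwL]
  constructor
  · intro h
    have h1 := inL_sub h hc2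
    have e : 2 * ((t : ℂ) + c) - 2 * c = ((2 * t : ℝ) : ℂ) := by push_cast; ring
    rwa [e] at h1
  · intro h
    have h1 := inL_add h hc2
    have e : ((2 * t : ℝ) : ℂ) + 2 * c = 2 * ((t : ℂ) + c) := by push_cast; ring
    rwa [e] at h1

omit h hc in
theorem two_notMem {t : ℝ} (ht : t ∈ Ioo 0 (w / 2)) : ¬ inL O (2 * ((t : ℂ) + c)) := by
  rw [two_iff hc2 hw hwL]
  rintro ⟨m, hm⟩
  obtain ⟨h1, h2⟩ := ht
  have h3 : (0 : ℝ) < m * w := by linarith
  have h4 : (m : ℝ) * w < 1 * w := by linarith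
  have h5 : (0 : ℝ) < m := (mul_pos_iff_of_pos_right hw).1 h3
  have h6 : (m : ℝ) < 1 := lt_of_mul_lt_mul_right h4 hw.le
  have h7 : 0 < m := by exact_mod_cast h5
  have h8 : m < 1 := by exact_mod_cast h6
  omega

omit h hc in
theorem notMem_I {t : ℝ} (ht : t ∈ Ioo 0 (w / 2)) : ¬ inL O ((t : ℂ) + c) :=
  fun h => two_notMem hc2 hw hwL ht (inL_two h)

theorem ps_ne {t : ℝ} (ht : t ∈ Ioo 0 (w / 2)) : ps O c t ≠ 0 := by
  intro h0
  have h1 := yy_ne h.ne (two_notMem hc2 hw hwL ht)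
  rw [← ps_eq h hc hc2, h0, Complex.ofReal_zero] at h1
  exact h1 rfl

theorem ph_pos {t : ℝ} (ht : t ∈ Ioo 0 (w / 2)) : 0 < ff a b (ph O c t) := by
  rw [← ps_sq h hc hc2 (notMem_I hc2 hw hwL ht)]
  exact lt_of_le_of_ne (sq_nonneg _) (pow_ne_zero 2 (ps_ne h hc hc2 hw hwL ht)).symm

theorem ph_injOn : InjOn (ph O c) (Ioo 0 (w / 2)) := by
  intro s hs t ht hst
  have h1 : xx O ((s : ℂ) + c) = xx O (t + c) := by
    rw [← ph_eq h hc hc2, ← ph_eq h hc hc2, hst]
  rcases xx_inj h.ne (two_notMem hc2 hw hwL ht) (notMem_I hc2 hw hwL hs) h1 with h2 | h2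
  · have e : (s : ℂ) + c - (t + c) = ((s - t : ℝ) : ℂ) := by push_cast; ring
    rw [e, hwL] at h2
    obtain ⟨m, hm⟩ := h2
    have h3 : (m : ℝ) * w < 1 * w := by linarith [hs.2, ht.1]
    have h4 : (-1 : ℝ) * w < m * w := by linarith [hs.1, ht.2]
    have h5 : (m : ℝ) < 1 := lt_of_mul_lt_mul_right h3 hw.le
    have h6 : (-1 : ℝ) < m := lt_of_mul_lt_mul_right h4 hw.le
    have h7 : m < 1 := by exact_mod_cast h5
    have h8 : -1 < m := by exact_mod_cast h6
    have h9 : m = 0 := by omega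
    rw [h9, Int.cast_zero, zero_mul] at hm
    linarith
  · exfalso
    have h3 := inL_sub h2 hc2
    have e : (s : ℂ) + c + (t + c) - 2 * c = ((s + t : ℝ) : ℂ) := by push_cast; ring
    rw [e, hwL] at h3
    obtain ⟨m, hm⟩ := h3
    have h3 : (m : ℝ) * w < 1 * w := by linarith [hs.2, ht.2]
    have h4 : (0 : ℝ) * w < m * w := by linarith [hs.1, ht.1]
    have h5 : (m : ℝ) < 1 := lt_of_mul_lt_mul_right h3 hw.le
    have h6 : (0 : ℝ) < m := lt_of_mul_lt_mul_right h4 hw.le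
    have h7 : m < 1 := by exact_mod_cast h5
    have h8 : 0 < m := by exact_mod_cast h6
    omega

omit h hc in
theorem reduce_I {t : ℝ} (ht : ¬ inL O (2 * ((t : ℂ) + c))) :
    ph O c t ∈ ph O c '' (Ioo 0 (w / 2)) := by
  obtain ⟨m, hm⟩ : ∃ m : ℤ, m = ⌊t / w⌋ := ⟨_, rfl⟩
  have h1 : (m : ℝ) * w ≤ t := by
    rw [hm, ← le_div_iff₀ hw]
    exact Int.floor_le _
  have h2 : t < m * w + w := by
    have := Int.lt_floor_add_one (t / w)
    rw [← hm, div_lt_iff₀ hw] at this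
    linarith
  rw [two_iff hc2 hw hwL] at ht
  obtain ⟨s, hs⟩ : ∃ s : ℝ, s = t - m * w := ⟨_, rfl⟩
  have hs0 : s ≠ 0 := by
    intro h
    exact ht ⟨2 * m, by push_cast; linarith⟩
  have hs1 : s ≠ w / 2 := by
    intro h
    exact ht ⟨2 * m + 1, by push_cast; linarith⟩
  have hs2 : 0 < s := lt_of_le_of_ne (by linarith) hs0.symm
  have hs3 : s < w := by linarith
  have hmw : inL O ((m * w : ℝ) : ℂ) := (hwL _).2 ⟨m, rfl⟩
  have hw1 : inL O (w : ℂ) := (hwL _).2 ⟨1, by rw [Int.cast_one, one_mul]⟩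
  have hts : ph O c t = ph O c s := by
    rw [ph, ph]
    congr 1
    have e : (t : ℂ) + c = (s + c) + ((m * w : ℝ) : ℂ) := by
      rw [hs]
      push_cast
      ring
    rw [e, xx_add hmw]
  rcases lt_or_gt_of_ne hs1 with h | h
  · exact ⟨s, ⟨hs2, h⟩, hts.symm⟩
  · refine ⟨w - s, ⟨by linarith, by linarith⟩, ?_⟩
    rw [hts, ph, ph]
    congr 1
    have e : ((w - s : ℝ) : ℂ) + c = -((s : ℂ) + c) + (w + 2 * c) := by
      push_cast
      ring
    rw [e, xx_add (inL_add hw1 hc2), xx_neg]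

theorem jac_I {t : ℝ} (ht : t ∈ Ioo 0 (w / 2)) :
    |ps O c t| • (Real.sqrt (ff a b (ph O c t)))⁻¹ = 1 := by
  rw [← ps_sq h hc hc2 (notMem_I hc2 hw hwL ht), Real.sqrt_sq_eq_abs, smul_eq_mul,
    mul_inv_cancel₀ (abs_ne_zero.2 (ps_ne h hc hc2 hw hwL ht))]

theorem integral_I : ∫ x in ph O c '' (Ioo 0 (w / 2)), (Real.sqrt (ff a b x))⁻¹ = w / 2 := by
  have h1 := integral_image_eq_integral_abs_deriv_smul measurableSet_Ioo
    (fun y hy => (hasDerivAt_ph h (notMem_I hc2 hw hwL hy)).hasDerivWithinAt)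
    (ph_injOn h hc hc2 hw hwL) (fun x : ℝ => (Real.sqrt (ff a b x))⁻¹)
  rw [setIntegral_congr_fun measurableSet_Ioo (fun z hz => jac_I h hc hc2 hw hwL hz),
    setIntegral_const, smul_eq_mul, measureReal_def, Real.volume_Ioo, sub_zero,
    ENNReal.toReal_ofReal (by positivity), mul_one] at h1
  exact h1

theorem integrable_I : IntegrableOn (fun x : ℝ => (Real.sqrt (ff a b x))⁻¹)
    (ph O c '' (Ioo 0 (w / 2))) := by
  rw [integrableOn_image_iff_integrableOn_abs_deriv_smul measurableSet_Ioo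
    (fun y hy => (hasDerivAt_ph h (notMem_I hc2 hw hwL hy)).hasDerivWithinAt)
    (ph_injOn h hc hc2 hw hwL)]
  have h1 : IntegrableOn (fun _ : ℝ => (1 : ℝ)) (Ioo 0 (w / 2)) := by
    rw [integrableOn_const_iff]
    right
    rw [Real.volume_Ioo]
    exact ENNReal.ofReal_lt_top
  exact h1.congr_fun (fun z hz => (jac_I h hc hc2 hw hwL hz).symm) measurableSet_Ioo

theorem measurable_I : MeasurableSet (ph O c '' (Ioo 0 (w / 2))) := by
  refine measurable_image_of_fderivWithin measurableSet_Ioo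
    (fun y hy => (hasDerivAt_ph h (notMem_I hc2 hw hwL hy)).hasFDerivAt.hasFDerivWithinAt)
    (ph_injOn h hc hc2 hw hwL)

end line

theorem conj_zero_neg : (starRingEnd ℂ) (0 : ℂ) = -0 := by rw [map_zero, neg_zero]

/-- The real points of the curve. -/
theorem cover {O : ℂ} {a b : ℝ} (h : CR O (a : ℂ) (b : ℂ)) {w η : ℝ} (hw : 0 < w)
    (hwL : ∀ t : ℝ, inL O t ↔ ∃ m : ℤ, t = m * w)
    (hη : ∀ t : ℝ, inL O (t * I) ↔ ∃ m : ℤ, t = m * η)
    (hc : (starRingEnd ℂ) ((η / 2 : ℝ) * I) = -((η / 2 : ℝ) * I))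
    (hc2 : inL O (2 * ((η / 2 : ℝ) * I))) {x : ℝ} (hx : 0 < ff a b x) :
    x ∈ ph O 0 '' (Ioo 0 (w / 2)) ∪ ph O ((η / 2 : ℝ) * I) '' (Ioo 0 (w / 2)) := by
  obtain ⟨u, hu, hxu⟩ := xx_surj h.ne (x : ℂ)
  have hff : (ff (a : ℂ) (b : ℂ) (x : ℂ)) = ((ff a b x : ℝ) : ℂ) := by
    rw [ff, ff]
    push_cast
    rfl
  have hy2 := yy_sq h hu
  rw [hxu, hff] at hy2
  have hy0 : yy O u ≠ 0 := by
    intro h
    rw [h, zero_pow two_ne_zero, eq_comm, Complex.ofReal_eq_zero] at hy2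
    exact hx.ne' hy2
  have hyr : (starRingEnd ℂ) (yy O u) = yy O u := by
    have h1 : yy O u ^ 2 = ((Real.sqrt (ff a b x) : ℝ) : ℂ) ^ 2 := by
      rw [hy2, ← Complex.ofReal_pow, Real.sq_sqrt hx.le]
    rcases sq_eq_sq_iff_eq_or_eq_neg.1 h1 with h | h
    · rw [h, Complex.conj_ofReal]
    · rw [h, map_neg, Complex.conj_ofReal]
  have hu2 : ¬ inL O (2 * u) := fun h => hy0 (yy_half h)
  have hcu : ¬ inL O ((starRingEnd ℂ) u) := by
    intro h0
    have h1 := inL_conj h h0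
    rw [Complex.conj_conj] at h1
    exact hu h1
  have hxc : xx O ((starRingEnd ℂ) u) = xx O u := by rw [xx_conj h, hxu, Complex.conj_ofReal]
  have key : inL O ((starRingEnd ℂ) u - u) := by
    rcases xx_inj h.ne hu2 hcu hxc with h0 | h0
    · exact h0
    · exfalso
      have e : (starRingEnd ℂ) u = -u + ((starRingEnd ℂ) u + u) := by ring
      have h1 := yy_conj h u
      rw [e, yy_add h0, yy_neg, hyr] at h1
      apply hy0
      linear_combination -h1 / 2
  have e : (starRingEnd ℂ) u - u = ((-(2 * u.im) : ℝ) : ℂ) * I := by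
    apply Complex.ext
    · simp
    · simp
      ring
  rw [e, hη] at key
  obtain ⟨m, hm⟩ := key
  have hIη : ∀ k : ℤ, inL O (((k * η : ℝ) : ℂ) * I) := fun k => (hη _).2 ⟨k, rfl⟩
  have hure : u = (u.re : ℂ) + (u.im : ℂ) * I := (Complex.re_add_im u).symm
  rcases Int.even_or_odd' (-m) with ⟨k, hk | hk⟩
  · left
    have h1 : u.im = k * η := by
      have h2 : (-(m : ℝ)) = 2 * k := by exact_mod_cast hk
      have h3 : 2 * u.im = -m * η := by linarith
      rw [h2] at h3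
      linarith
    have h2 : xx O u = xx O ((u.re : ℂ) + 0) := by
      conv_lhs => rw [hure, h1]
      rw [xx_add (hIη k), add_zero]
    have h3 : x = ph O 0 u.re := by
      have h4 := ph_eq h conj_zero_neg (inL_two_zero O) u.re
      rw [← h2, hxu] at h4
      exact_mod_cast h4.symm
    rw [h3]
    refine reduce_I (inL_two_zero O) hw hwL ?_
    intro h
    apply hu2
    have e2 : 2 * u = 2 * ((u.re : ℂ) + 0) + 2 * (((k * η : ℝ) : ℂ) * I) := by
      conv_lhs => rw [hure, h1]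
      ring
    rw [e2]
    exact inL_add h (inL_two (hIη k))
  · right
    have h1 : u.im = k * η + η / 2 := by
      have h2 : (-(m : ℝ)) = 2 * k + 1 := by exact_mod_cast hk
      have h3 : 2 * u.im = -m * η := by linarith
      rw [h2] at h3
      linarith
    have e1 : u = ((u.re : ℂ) + (η / 2 : ℝ) * I) + ((k * η : ℝ) : ℂ) * I := by
      conv_lhs => rw [hure, h1]
      push_cast
      ring
    have h2 : xx O u = xx O ((u.re : ℂ) + (η / 2 : ℝ) * I) := by
      conv_lhs => rw [e1]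
      rw [xx_add (hIη k)]
    have h3 : x = ph O ((η / 2 : ℝ) * I) u.re := by
      have h4 := ph_eq h hc hc2 u.re
      rw [← h2, hxu] at h4
      exact_mod_cast h4.symm
    rw [h3]
    refine reduce_I hc2 hw hwL ?_
    intro h
    apply hu2
    have e2 : 2 * u = 2 * ((u.re : ℂ) + (η / 2 : ℝ) * I) + 2 * (((k * η : ℝ) : ℂ) * I) := by
      conv_lhs => rw [e1]
      ring
    rw [e2]
    exact inL_add h (inL_two (hIη k))

omit [CD] in
theorem ff_zero {a b x : ℝ} (hx : x ∉ {x : ℝ | 0 < ff a b x}) :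
    (Real.sqrt (ff a b x))⁻¹ = 0 := by
  have h : ff a b x ≤ 0 := not_lt.1 hx
  rw [Real.sqrt_eq_zero_of_nonpos h, inv_zero]

/-- The real period is `w` or `2 w`. -/
theorem perR_w {O : ℂ} {a b : ℝ} (h : CR O (a : ℂ) (b : ℂ)) {w : ℝ} (hw : 0 < w)
    (hwL : ∀ t : ℝ, inL O t ↔ ∃ m : ℤ, t = m * w) :
    perR (cv a b) = w ∨ perR (cv a b) = 2 * w := by
  obtain ⟨η, hη0, hη⟩ := imag_period h
  obtain ⟨c, hcdef⟩ : ∃ c : ℂ, c = (η / 2 : ℝ) * I := ⟨_, rfl⟩
  have hc : (starRingEnd ℂ) c = -c := by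
    rw [hcdef, map_mul, Complex.conj_ofReal, Complex.conj_I]
    ring
  have hc2 : inL O (2 * c) := by
    have e : 2 * c = ((η : ℝ) : ℂ) * I := by
      rw [hcdef]
      push_cast
      ring
    rw [e, hη]
    exact ⟨1, by rw [Int.cast_one, one_mul]⟩
  have hS : {x : ℝ | 0 < ff a b x} =
      ph O 0 '' (Ioo 0 (w / 2)) ∪ ph O c '' (Ioo 0 (w / 2)) := by
    ext x
    constructor
    · intro hx
      have h1 : 0 < ff a b x := hx
      rw [hcdef] at hc hc2 ⊢
      exact cover h hw hwL hη hc hc2 h1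
    · rintro (⟨t, ht, rfl⟩ | ⟨t, ht, rfl⟩)
      · exact ph_pos h conj_zero_neg (inL_two_zero O) hw hwL ht
      · exact ph_pos h hc hc2 hw hwL ht
  have hI : perR (cv a b) = 2 * ∫ x in {x : ℝ | 0 < ff a b x}, (Real.sqrt (ff a b x))⁻¹ := by
    rw [perR, setIntegral_eq_integral_of_forall_compl_eq_zero (fun x hx => ff_zero hx),
      ← integral_const_mul]
    simp only [fib_R]
  by_cases hex : ∃ r : ℝ, inL O (r + c)
  · left
    obtain ⟨r, hr⟩ := hex
    have hsub : ph O c '' (Ioo 0 (w / 2)) ⊆ ph O 0 '' (Ioo 0 (w / 2)) := by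
      rintro _ ⟨t, ht, rfl⟩
      have h1 : xx O ((t : ℂ) + c) = xx O (((t - r : ℝ) : ℂ) + 0) := by
        have e : (t : ℂ) + c = (((t - r : ℝ) : ℂ) + 0) + (r + c) := by push_cast; ring
        rw [e, xx_add hr]
      have h2 : ph O c t = ph O 0 (t - r) := by rw [ph, ph, h1]
      rw [h2]
      refine reduce_I (inL_two_zero O) hw hwL ?_
      intro h3
      apply two_notMem hc2 hw hwL ht
      have e : 2 * ((t : ℂ) + c) = 2 * (((t - r : ℝ) : ℂ) + 0) + 2 * (r + c) := by push_cast; ring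
      rw [e]
      exact inL_add h3 (inL_two hr)
    rw [hI, hS, union_eq_left.2 hsub, integral_I h conj_zero_neg (inL_two_zero O) hw hwL]
    ring
  · right
    have hdis : Disjoint (ph O 0 '' (Ioo 0 (w / 2))) (ph O c '' (Ioo 0 (w / 2))) := by
      rw [Set.disjoint_left]
      rintro _ ⟨t, ht, rfl⟩ ⟨s, hs, hst⟩
      apply hex
      have h1 : xx O ((t : ℂ) + 0) = xx O (s + c) := by
        rw [← ph_eq h hc hc2, ← ph_eq h conj_zero_neg (inL_two_zero O), hst]
      rcases xx_inj h.ne (two_notMem hc2 hw hwL hs) (notMem_I (inL_two_zero O) hw hwL ht) h1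
        with h2 | h2
      · refine ⟨s - t, ?_⟩
        have h3 := inL_neg h2
        have e : -((t : ℂ) + 0 - (s + c)) = ((s - t : ℝ) : ℂ) + c := by push_cast; ring
        rwa [e] at h3
      · refine ⟨s + t, ?_⟩
        have e : (t : ℂ) + 0 + (s + c) = ((s + t : ℝ) : ℂ) + c := by push_cast; ring
        rwa [e] at h2
    rw [hI, hS, setIntegral_union hdis (measurable_I h hc hc2 hw hwL)
      (integrable_I h conj_zero_neg (inL_two_zero O) hw hwL) (integrable_I h hc hc2 hw hwL),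
      integral_I h conj_zero_neg (inL_two_zero O) hw hwL, integral_I h hc hc2 hw hwL]
    ring

/-! ### The factor -/

/-- An element of `𝓞 K` whose square is divisible by a prime number prime to the discriminant. -/
theorem dvd_of_dvd_sq {p : ℕ} (hp : p.Prime) (hd : ¬ (p : ℤ) ∣ CD.tr ^ 2 - 4 * CD.nm) {y : 𝓞 K}
    (h : (p : 𝓞 K) ∣ y ^ 2) : (p : 𝓞 K) ∣ y := by
  have hpZ : Prime (p : ℤ) := Nat.prime_iff_prime_int.1 hp
  obtain ⟨m, n, rfl⟩ := exists_coords y
  obtain ⟨z, hz⟩ := h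
  obtain ⟨u, v, rfl⟩ := exists_coords z
  have e : ((m ^ 2 - n ^ 2 * CD.nm : ℤ) : 𝓞 K) + ((2 * m * n + n ^ 2 * CD.tr : ℤ) : 𝓞 K) * ta =
      (((p : ℤ) * u : ℤ) : 𝓞 K) + (((p : ℤ) * v : ℤ) : 𝓞 K) * ta := by
    push_cast
    linear_combination hz - (n : 𝓞 K) ^ 2 * ta_quad
  obtain ⟨h1, h2⟩ := coords_inj e
  have hn : (p : ℤ) ∣ n := by
    have h3 : (p : ℤ) ∣ n * (2 * m + n * CD.tr) := ⟨v, by linear_combination h2⟩
    rcases hpZ.dvd_or_dvd h3 with h4 | h4
    · exact h4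
    · obtain ⟨k, hk⟩ := h4
      have h5 : (p : ℤ) ∣ n ^ 2 * (CD.tr ^ 2 - 4 * CD.nm) :=
        ⟨4 * u - k * (2 * m - n * CD.tr), by linear_combination 4 * h1 - (2 * m - n * CD.tr) * hk⟩
      rcases hpZ.dvd_or_dvd h5 with h6 | h6
      · exact hpZ.dvd_of_dvd_pow h6
      · exact absurd h6 hd
  have hm : (p : ℤ) ∣ m := by
    obtain ⟨k, hk⟩ := hn
    refine hpZ.dvd_of_dvd_pow (n := 2) ⟨u + k * n * CD.nm, ?_⟩
    linear_combination h1 + n * CD.nm * hk
  obtain ⟨i, hi⟩ := hm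
  obtain ⟨j, hj⟩ := hn
  refine ⟨(i : 𝓞 K) + (j : 𝓞 K) * ta, ?_⟩
  rw [hi, hj]
  push_cast
  ring

/-- The real period is positive and it is `k O y` with `k = 1, 2` and `y ∈ 𝓞 K`, of norm prime to the
prime numbers which do not divide the discriminant. -/
theorem perR_cv {O : ℂ} {a b : ℝ} (h : CR O (a : ℂ) (b : ℂ)) : 0 < perR (cv a b) ∧
    ∃ (k : ℕ) (y : 𝓞 K), (k = 1 ∨ k = 2) ∧ y ≠ 0 ∧
      (perR (cv a b) : ℂ) = k * (O * embK (y : K)) ∧
      (∀ p : ℕ, p.Prime → ¬ (p : ℤ) ∣ CD.tr ^ 2 - 4 * CD.nm →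
        ¬ p ∣ Ideal.absNorm (Ideal.span {y})) := by
  obtain ⟨w, hw, hwL⟩ := real_period h
  have hw1 : inL O (w : ℂ) := (hwL _).2 ⟨1, by rw [Int.cast_one, one_mul]⟩
  obtain ⟨k, hk, hkw⟩ : ∃ k : ℕ, (k = 1 ∨ k = 2) ∧ perR (cv a b) = k * w := by
    rcases perR_w h hw hwL with h | h
    · exact ⟨1, Or.inl rfl, by rw [h, Nat.cast_one, one_mul]⟩
    · exact ⟨2, Or.inr rfl, by rw [h, Nat.cast_ofNat]⟩
  have hk0 : 0 < k := by omega
  have hpos : 0 < perR (cv a b) := by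
    rw [hkw]
    have : (0 : ℝ) < k := by exact_mod_cast hk0
    positivity
  obtain ⟨y, hy⟩ := S3.mem_PP_iff.1 hw1
  have h2 : (w : ℂ) = O * embK (y : K) := by rw [hy, mul_div_cancel₀ _ h.ne]
  have hy0 : y ≠ 0 := by
    rintro rfl
    have h3 : embK ((0 : 𝓞 K) : K) = 0 := map_zero embK
    rw [h3, mul_zero, Complex.ofReal_eq_zero] at h2
    exact hw.ne' h2
  refine ⟨hpos, k, y, hk, hy0, ?_, ?_⟩
  · rw [hkw, ← h2]
    push_cast
    rfl
  · intro p hp hd hpn
    -- `y` is primitive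
    have hprim : ¬ (p : 𝓞 K) ∣ y := by
      rintro ⟨z, rfl⟩
      have hp0 : (p : ℂ) ≠ 0 := by exact_mod_cast hp.ne_zero
      have e1 : embK (((p : 𝓞 K) * z : 𝓞 K) : K) = (p : ℂ) * embK (z : K) := by
        have e2 : (((p : 𝓞 K) * z : 𝓞 K) : K) = (p : K) * (z : K) := by
          change algebraMap (𝓞 K) K ((p : 𝓞 K) * z) = _
          rw [map_mul, map_natCast]
        rw [e2, map_mul, map_natCast]
      have h3 : inL O ((w / p : ℝ) : ℂ) := by
        have e3 : ((w / p : ℝ) : ℂ) = embK (z : K) * O := by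
          rw [Complex.ofReal_div, h2, e1, Complex.ofReal_natCast]
          field_simp
        rw [e3]
        exact inL_mul h.ne (S3.embK_mem z)
      obtain ⟨m, hm⟩ := (hwL _).1 h3
      have hp1 : (1 : ℝ) < p := by exact_mod_cast hp.one_lt
      have h4 : (0 : ℝ) < m * w := by
        rw [← hm]
        positivity
      have h5 : (m : ℝ) * w < 1 * w := by
        rw [← hm, one_mul]
        exact div_lt_self hw hp1
      have h6 : (0 : ℝ) < m := (mul_pos_iff_of_pos_right hw).1 h4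
      have h7 : (m : ℝ) < 1 := lt_of_mul_lt_mul_right h5 hw.le
      have h8 : 0 < m := by exact_mod_cast h6
      have h9 : m < 1 := by exact_mod_cast h7
      omega
    -- the norm is `y²` up to a unit
    apply hprim
    refine dvd_of_dvd_sq hp hd ?_
    obtain ⟨c, hc⟩ := S3.mem_PP_iff.1 (eps_inv_mem h 1 S3.one_mem)
    have h3 : (starRingEnd ℂ) O * (starRingEnd ℂ) (embK (y : K)) = O * embK (y : K) := by
      rw [← map_mul, ← h2, Complex.conj_ofReal]
    have h4 : eps O * embK ((cj y : 𝓞 K) : K) = embK (y : K) := by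
      rw [← eps_mul h.ne, ← emb_cj] at h3
      apply mul_left_cancel₀ h.ne
      linear_combination h3
    have h5 : cj y = c * y := by
      apply RingOfIntegers.ext
      apply embK.toRingHom.injective
      show embK ((cj y : 𝓞 K) : K) = embK ((c : K) * (y : K))
      rw [map_mul, hc, mul_one, ← h4, inv_mul_cancel_left₀ (eps_ne h.ne)]
    obtain ⟨d, hdd⟩ := S3.mem_PP_iff.1 (eps_mem h 1 S3.one_mem)
    have h6 : d * c = 1 := by
      apply RingOfIntegers.ext
      apply embK.toRingHom.injective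
      show embK ((d : K) * (c : K)) = embK ((1 : 𝓞 K) : K)
      have e1 : embK ((1 : 𝓞 K) : K) = 1 := map_one embK
      rw [map_mul, hdd, hc, mul_one, mul_one, mul_inv_cancel₀ (eps_ne h.ne), e1]
    have h7 : y ^ 2 = d * ((Ideal.absNorm (Ideal.span {y}) : ℕ) : 𝓞 K) := by
      rw [← mul_cj, h5]
      linear_combination -(y ^ 2) * h6
    rw [h7]
    refine Dvd.dvd.mul_left ?_ _
    obtain ⟨r, hr⟩ := hpn
    exact ⟨r, by rw [hr]; push_cast; ring⟩

/-- The real period of `E` is positive and it is `Om y` with `y ∈ 𝓞 K`. -/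
theorem perR_E : 0 < perR (E ℝ) ∧ ∃ y : 𝓞 K, y ≠ 0 ∧ (perR (E ℝ) : ℂ) = Om * embK (y : K) := by
  have hE : CR Om (((CD.A : ℤ) : ℝ) : ℂ) (((CD.B : ℤ) : ℝ) : ℂ) := by
    rw [Complex.ofReal_intCast, Complex.ofReal_intCast]
    exact CR.base
  obtain ⟨h1, k, y, hk, hy, h2, -⟩ := perR_cv hE
  refine ⟨h1, (k : 𝓞 K) * y, mul_ne_zero ?_ hy, ?_⟩
  · have : (k : 𝓞 K) ≠ 0 := by
      rcases hk with rfl | rfl <;> norm_num
    exact this
  · have e : (((k : 𝓞 K) * y : 𝓞 K) : K) = (k : K) * (y : K) := by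
      change algebraMap (𝓞 K) K ((k : 𝓞 K) * y) = _
      rw [map_mul, map_natCast]
    rw [e, map_mul, map_natCast]
    change (perR (cv ((CD.A : ℤ) : ℝ) ((CD.B : ℤ) : ℝ)) : ℂ) = _
    rw [h2]
    ring

end

end Pool.Agent.Lib.MP_1a91b9_nuT.Per
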