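import Pool.Agent.Lib.MP_1a91b9_nuT.S3.Grp

/-!
# Periods, file Wp: the Weierstrass function, complex conjugation and units
-/

set_option autoImplicit false

namespace Pool.Agent.Lib.MP_1a91b9_nuT.Per

variable [CD]

open Complex Filter Topology

noncomputable section

/-! ### Complex conjugation -/

/-- Conjugation as a permutation of the lattice. -/
def conjE : PP.lattice ≃ PP.lattice where
  toFun l := ⟨(starRingEnd ℂ) l, S3.conj_mem l.2⟩
  invFun l := ⟨(starRingEnd ℂ) l, S3.conj_mem l.2⟩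
  left_inv _ := Subtype.ext (Complex.conj_conj _)
  right_inv _ := Subtype.ext (Complex.conj_conj _)

theorem P_conj (z : ℂ) : PP.weierstrassP ((starRingEnd ℂ) z) =
    (starRingEnd ℂ) (PP.weierstrassP z) := by
  simp only [PeriodPair.weierstrassP]
  rw [← conjE.tsum_eq, Complex.conj_tsum]
  refine tsum_congr fun l => ?_
  show 1 / ((starRingEnd ℂ) z - (starRingEnd ℂ) l) ^ 2 - 1 / ((starRingEnd ℂ) (l : ℂ)) ^ 2 = _
  rw [map_sub, map_div₀, map_div₀, map_pow, map_pow, map_sub, map_one]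

theorem Q_conj (z : ℂ) : PP.derivWeierstrassP ((starRingEnd ℂ) z) =
    (starRingEnd ℂ) (PP.derivWeierstrassP z) := by
  simp only [PeriodPair.derivWeierstrassP]
  rw [← conjE.tsum_eq, map_neg, Complex.conj_tsum]
  congr 1
  refine tsum_congr fun l => ?_
  show 2 / ((starRingEnd ℂ) z - (starRingEnd ℂ) l) ^ 3 = _
  rw [map_div₀, map_pow, map_sub, Complex.conj_ofNat]

theorem G_conj (k : ℕ) : (starRingEnd ℂ) (PP.G k) = PP.G k := by
  rw [PeriodPair.G, Complex.conj_tsum, ← conjE.tsum_eq]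
  refine tsum_congr fun l => ?_
  show (starRingEnd ℂ) ((starRingEnd ℂ) (l : ℂ) ^ k)⁻¹ = _
  rw [map_inv₀, map_pow, Complex.conj_conj]

theorem g2_conj : (starRingEnd ℂ) PP.g₂ = PP.g₂ := by
  rw [PeriodPair.g₂, map_mul, Complex.conj_ofNat, G_conj]

theorem g3_conj : (starRingEnd ℂ) PP.g₃ = PP.g₃ := by
  rw [PeriodPair.g₃, map_mul, Complex.conj_ofNat, G_conj]

/-! ### Units -/

section units

variable {ε : ℂ} (h1 : ∀ l ∈ PP.lattice, ε * l ∈ PP.lattice)
  (h2 : ∀ l ∈ PP.lattice, ε⁻¹ * l ∈ PP.lattice) (h0 : ε ≠ 0)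

/-- Multiplication by a unit as a permutation of the lattice. -/
def mulE : PP.lattice ≃ PP.lattice where
  toFun l := ⟨ε * l, h1 l l.2⟩
  invFun l := ⟨ε⁻¹ * l, h2 l l.2⟩
  left_inv l := Subtype.ext (inv_mul_cancel_left₀ h0 _)
  right_inv l := Subtype.ext (mul_inv_cancel_left₀ h0 _)

include h1 h2 h0

theorem P_unit (z : ℂ) : PP.weierstrassP (ε * z) = PP.weierstrassP z / ε ^ 2 := by
  simp only [PeriodPair.weierstrassP]
  rw [← (mulE h1 h2 h0).tsum_eq, div_eq_mul_inv, ← tsum_mul_right]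
  refine tsum_congr fun l => ?_
  show 1 / (ε * z - ε * (l : ℂ)) ^ 2 - 1 / (ε * (l : ℂ)) ^ 2 = _
  rw [← mul_sub, mul_pow, mul_pow, one_div, one_div, mul_inv, mul_inv, one_div, one_div]
  ring

theorem Q_unit (z : ℂ) : PP.derivWeierstrassP (ε * z) = PP.derivWeierstrassP z / ε ^ 3 := by
  simp only [PeriodPair.derivWeierstrassP]
  rw [← (mulE h1 h2 h0).tsum_eq, div_eq_mul_inv, neg_mul, ← tsum_mul_right]
  congr 1
  refine tsum_congr fun l => ?_
  show 2 / (ε * z - ε * (l : ℂ)) ^ 3 = _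
  rw [← mul_sub, mul_pow, div_eq_mul_inv, div_eq_mul_inv, mul_inv]
  ring

end units

end

end Pool.Agent.Lib.MP_1a91b9_nuT.Per
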